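import Pool.Agent.R679.Star1

/-!
# Divisibility of element counts forces prime power element orders

Let `N d` be the number of the elements of order `d` of the finite group `G`. Condition (star): for
every divisor `d > 1` of the order of `G` and every subgroup `H` whose order is coprime to `d`, the
order of `H` divides `N d`. We prove that then every element of `G` has prime power order.

Idea of the proof. For a set `σ` of primes let `ex σ` be the number of the elements whose order has
exactly the prime divisors in `σ`. By (star) with Sylow subgroups, the `q`-part of the order of `G`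
divides `ex σ` for each prime `q` outside `σ` (if `σ` is not empty). By Frobenius' theorem the
number of the `σ`-elements is divisible by the `p`-part of the order of `G` for each `p` in `σ`.
Let `σ` be minimal with at least two elements and with `ex σ ≠ 0`. The number of the `σ`-elements is
`1 + ∑ p ∈ σ, ex {p} + ex σ`. Here the `p`-part of the order of `G` divides `1 + ex {p}`, and
divides `ex {q}` for `q ≠ p`, so it divides `ex σ`. So the order of `G` divides `ex σ`, which is
smaller than the order of `G`, a contradiction.
-/

set_option autoImplicit false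

namespace Pool.Agent.Results.MP_9320d9_al.PrimePowerOrders

open Finset Pool.Agent.R679.Star

universe w

/-- Condition (star): for every divisor `d > 1` of the order of `G` and every subgroup `H` whose
order is coprime to `d`, the order of `H` divides the number of the elements of order `d`. -/
def DivCond (G : Type w) [Group G] : Prop :=
  ∀ d : ℕ, d ∣ Nat.card G → 1 < d → ∀ H : Subgroup G, Nat.Coprime (Nat.card H) d →
    Nat.card H ∣ Nat.card {g : G // orderOf g = d}

theorem star_pp {G : Type w} [Group G] [Finite G] (h : DivCond G) {d q : ℕ} (hd : d ∣ Nat.card G)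
    (hd1 : 1 < d) (hq : q.Prime) (hqd : ¬ q ∣ d) :
    pp q (Nat.card G) ∣ Nat.card {g : G // orderOf g = d} := by
  haveI := Fact.mk hq
  obtain ⟨P⟩ : Nonempty (Sylow q G) := inferInstance
  have h1 : Nat.card (P : Subgroup G) = pp q (Nat.card G) := P.card_eq_multiplicity
  rw [← h1]
  apply h d hd hd1
  rw [h1]
  exact Nat.Coprime.pow_left _ (hq.coprime_iff_not_dvd.2 hqd)

/-- number of the elements whose order has exactly the prime divisors in `σ` -/
noncomputable def ex (G : Type w) [Group G] (σ : Finset ℕ) : ℕ :=
  Nat.card {x : G // (orderOf x).primeFactors = σ}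

theorem ex_pp {G : Type w} [Group G] [Finite G] (h : DivCond G) {σ : Finset ℕ} {q : ℕ}
    (hσ : σ.Nonempty) (hq : q.Prime) (hqσ : q ∉ σ) : pp q (Nat.card G) ∣ ex G σ := by
  classical
  haveI := Fintype.ofFinite G
  have h1 : ex G σ = ∑ d ∈ (Nat.card G).divisors.filter (fun d => d.primeFactors = σ),
      Nat.card {g : G // orderOf g = d} := by
    unfold ex
    rw [Nat.card_eq_fintype_card, Fintype.card_subtype]
    rw [Finset.card_eq_sum_card_fiberwise (f := fun x : G => orderOf x)
      (t := (Nat.card G).divisors.filter (fun d => d.primeFactors = σ))]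
    · apply Finset.sum_congr rfl
      intro d hd
      rw [Nat.card_eq_fintype_card, Fintype.card_subtype]
      congr 1
      ext x
      simp only [Finset.mem_filter, Finset.mem_univ, true_and]
      constructor
      · exact fun h => h.2
      · intro h
        refine ⟨?_, h⟩
        rw [h]
        exact (Finset.mem_filter.1 hd).2
    · intro x hx
      simp only [Finset.coe_filter, Finset.mem_univ, true_and, Set.mem_setOf_eq] at hx ⊢
      exact ⟨Nat.mem_divisors.2 ⟨orderOf_dvd_natCard x, Nat.card_pos.ne'⟩, hx⟩
  rw [h1]
  apply Finset.dvd_sum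
  intro d hd
  rw [Finset.mem_filter, Nat.mem_divisors] at hd
  obtain ⟨⟨hd1, _⟩, hd2⟩ := hd
  apply star_pp h hd1 _ hq
  · intro h'
    apply hqσ
    rw [← hd2]
    have : d ≠ 0 := by
      rintro rfl
      exact Nat.card_pos.ne' (Nat.eq_zero_of_zero_dvd hd1)
    exact Nat.mem_primeFactors.2 ⟨hq, h', this⟩
  · obtain ⟨r, hr⟩ := hσ
    rw [← hd2] at hr
    have h2 := (Nat.prime_of_mem_primeFactors hr).two_le
    have h3 := Nat.le_of_mem_primeFactors hr
    omega

theorem dvd_of_pp {a b : ℕ} (ha : a ≠ 0) (h : ∀ p : ℕ, p.Prime → pp p a ∣ b) : a ∣ b := by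
  rw [Nat.dvd_iff_prime_pow_dvd_dvd]
  intro p k hp hk
  refine dvd_trans ?_ (h p hp)
  exact pow_dvd_pow _ ((hp.pow_dvd_iff_le_factorization ha).1 hk)

theorem ex_zero {G : Type w} [Group G] [Finite G] (h : DivCond G) (σ : Finset ℕ)
    (hσ : 2 ≤ σ.card)
    (hmin : ∀ y : G, (orderOf y).primeFactors ⊆ σ → (orderOf y).primeFactors ≠ σ →
      (orderOf y).primeFactors.card ≤ 1) : ex G σ = 0 := by
  classical
  haveI := Fintype.ofFinite G
  have hne : σ.Nonempty := Finset.card_pos.1 (by omega)
  -- the decomposition of the number of `σ`-elements
  have hexf : ∀ τ : Finset ℕ, ex G τ = (univ.filter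
      (fun x : G => (orderOf x).primeFactors = τ)).card := by
    intro τ
    unfold ex
    rw [Nat.card_eq_fintype_card, Fintype.card_subtype]
  have helf : ∀ τ : Finset ℕ, el G τ = (univ.filter
      (fun x : G => (orderOf x).primeFactors ⊆ τ)).card := by
    intro τ
    unfold el
    rw [Nat.card_eq_fintype_card, Fintype.card_subtype]
  have hempty : ex G ∅ = 1 := by
    rw [hexf, Finset.card_eq_one]
    refine ⟨1, ?_⟩
    ext x
    rw [Finset.mem_filter, Finset.mem_singleton, Nat.primeFactors_eq_empty]
    constructor
    · rintro ⟨_, h1 | h1⟩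
      · exact absurd h1 (orderOf_pos x).ne'
      · exact orderOf_eq_one_iff.1 h1
    · rintro rfl
      exact ⟨Finset.mem_univ _, Or.inr orderOf_one⟩
  have hsingle : ∀ p ∈ σ, el G {p} = 1 + ex G {p} := by
    intro p _
    rw [← hempty, hexf, hexf, helf, ← Finset.card_union_of_disjoint]
    · congr 1
      ext x
      simp only [Finset.mem_filter, Finset.mem_univ, true_and, Finset.mem_union,
        Finset.subset_singleton_iff]
    · rw [Finset.disjoint_filter]
      intro x _ h1 h2
      rw [h1] at h2
      exact (Finset.singleton_ne_empty p) h2.symm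
  have hsum : el G σ = 1 + ∑ p ∈ σ, ex G {p} + ex G σ := by
    have h1 : (univ.filter (fun x : G => (orderOf x).primeFactors ⊆ σ)) =
        ((univ.filter (fun x : G => (orderOf x).primeFactors = ∅)) ∪
        (σ.biUnion fun p => univ.filter (fun x : G => (orderOf x).primeFactors = {p}))) ∪
        (univ.filter (fun x : G => (orderOf x).primeFactors = σ)) := by
      ext x
      simp only [Finset.mem_filter, Finset.mem_univ, true_and, Finset.mem_union,
        Finset.mem_biUnion]
      constructor
      · intro hx
        by_cases hx2 : (orderOf x).primeFactors = σ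
        · exact Or.inr hx2
        · left
          have h2 := hmin x hx hx2
          rcases Nat.lt_or_ge (orderOf x).primeFactors.card 1 with h3 | h3
          · left
            exact Finset.card_eq_zero.1 (by omega)
          · right
            obtain ⟨p, hp⟩ := Finset.card_eq_one.1 (le_antisymm h2 h3)
            refine ⟨p, ?_, hp⟩
            apply hx
            rw [hp]
            exact Finset.mem_singleton_self _
      · rintro ((hx | ⟨p, hp, hx⟩) | hx)
        · rw [hx]
          exact Finset.empty_subset _
        · rw [hx]
          exact Finset.singleton_subset_iff.2 hp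
        · rw [hx]
    rw [helf, h1, Finset.card_union_of_disjoint, Finset.card_union_of_disjoint,
      Finset.card_biUnion, ← hexf, ← hexf, hempty]
    · simp only [← hexf]
    · intro p _ q _ hpq
      rw [Function.onFun, Finset.disjoint_filter]
      intro x _ h1 h2
      rw [h1] at h2
      exact hpq (Finset.singleton_injective h2)
    · rw [Finset.disjoint_biUnion_right]
      intro p _
      rw [Finset.disjoint_filter]
      intro x _ h1 h2
      rw [h1] at h2
      exact (Finset.singleton_ne_empty p) h2.symm
    · rw [Finset.disjoint_union_left, Finset.disjoint_biUnion_left]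
      refine ⟨?_, ?_⟩
      · rw [Finset.disjoint_filter]
        intro x _ h1 h2
        rw [h1] at h2
        rw [← h2] at hσ
        simp at hσ
      · intro p _
        rw [Finset.disjoint_filter]
        intro x _ h1 h2
        rw [h1] at h2
        rw [← h2] at hσ
        simp at hσ
  -- divisibility
  have hdvd : Nat.card G ∣ ex G σ := by
    apply dvd_of_pp Nat.card_pos.ne'
    intro p hp
    by_cases hpσ : p ∈ σ
    · have h1 := frob hp G σ hpσ
      rw [hsum, ← Finset.add_sum_erase _ _ hpσ, ← add_assoc, ← hsingle p hpσ] at h1
      have h2 : pp p (Nat.card G) ∣ el G {p} := frob_p hp _ G le_rfl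
      have h3 : pp p (Nat.card G) ∣ ∑ q ∈ σ.erase p, ex G {q} := by
        apply Finset.dvd_sum
        intro q hq
        apply ex_pp h (Finset.singleton_nonempty q) hp
        rw [Finset.mem_singleton]
        exact (Finset.ne_of_mem_erase hq).symm
      exact (Nat.dvd_add_right (dvd_add h2 h3)).1 h1
    · exact ex_pp h hne hp hpσ
  -- and it is less than the order of `G`
  have hlt : ex G σ < Nat.card G := by
    rw [hexf, Nat.card_eq_fintype_card]
    apply Finset.card_lt_univ_of_notMem (x := (1 : G))
    rw [Finset.mem_filter, orderOf_one, Nat.primeFactors_one]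
    rintro ⟨_, h1⟩
    rw [← h1] at hne
    exact Finset.not_nonempty_empty hne
  exact Nat.eq_zero_of_dvd_of_lt hdvd hlt

theorem card_le_one {G : Type w} [Group G] [Finite G] (h : DivCond G) (n : ℕ) :
    ∀ x : G, (orderOf x).primeFactors.card = n → (orderOf x).primeFactors.card ≤ 1 := by
  induction n using Nat.strong_induction_on with
  | _ n ih =>
    intro x hx
    by_contra hcon
    have hz := ex_zero h (orderOf x).primeFactors (by omega) (by
        intro y hy hy'
        have h1 := Finset.card_lt_card (Finset.ssubset_iff_subset_ne.2 ⟨hy, hy'⟩)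
        exact ih _ (by omega) y rfl)
    have h2 : 0 < ex G (orderOf x).primeFactors := by
      haveI : Nonempty {y : G // (orderOf y).primeFactors = (orderOf x).primeFactors} :=
        ⟨⟨x, rfl⟩⟩
      exact Nat.card_pos
    omega

theorem prime_pow {n : ℕ} (hn : n ≠ 0) (h : n.primeFactors.card ≤ 1) :
    ∃ p k : ℕ, p.Prime ∧ n = p ^ k := by
  rcases Nat.lt_or_ge n.primeFactors.card 1 with h1 | h1
  · have h2 : n.primeFactors = ∅ := Finset.card_eq_zero.1 (by omega)
    rw [Nat.primeFactors_eq_empty] at h2
    refine ⟨2, 0, Nat.prime_two, ?_⟩
    rcases h2 with h2 | h2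
    · exact absurd h2 hn
    · rw [h2, pow_zero]
  · obtain ⟨p, hp⟩ := Finset.card_eq_one.1 (le_antisymm h h1)
    have hpp : p.Prime := Nat.prime_of_mem_primeFactors (n := n) (by
      rw [hp]; exact Finset.mem_singleton_self _)
    refine ⟨p, n.factorization p, hpp, ?_⟩
    conv_lhs => rw [← Nat.factorization_prod_pow_eq_self hn]
    rw [Finsupp.prod]
    have : n.factorization.support = {p} := hp
    rw [this, Finset.prod_singleton]

/-- If a finite group satisfies condition (star) then all its elements have prime power order. -/
theorem result (G : Type w) [Group G] [Finite G] (h : DivCond G) (x : G) :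
    ∃ p k : ℕ, p.Prime ∧ orderOf x = p ^ k :=
  prime_pow (orderOf_pos x).ne' (card_le_one h _ x rfl)

end Pool.Agent.Results.MP_9320d9_al.PrimePowerOrders
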